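import Pool.Agent.Lib.MP_d3a5e5_co.X7

set_option autoImplicit false

namespace Pool.Agent.Results.MP_d3a5e5_co.BoundedCycles

/-- `G` has a drawing in the plane in which every edge crosses at most `k` other edges
(the wording is that of the frozen statement of the problem). -/
def KPlanar {V : Type} (G : SimpleGraph V) (k : ℕ) : Prop :=
  ∃ f : V → ℝ × ℝ, Function.Injective f ∧
    ∃ γ : V → V → C(unitInterval, ℝ × ℝ),
      (∀ u v : V, G.Adj u v →
        γ u v 0 = f u ∧ γ u v 1 = f v ∧ Function.Injective (γ u v) ∧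
        (∀ t : unitInterval, γ v u t = γ u v (unitInterval.symm t)) ∧
        (∀ t : unitInterval, t ≠ 0 → t ≠ 1 → ∀ w : V, γ u v t ≠ f w)) ∧
      (∀ u v : V, G.Adj u v →
        {e : Sym2 V | e ∈ G.edgeSet ∧ e ≠ s(u, v) ∧
          ∃ x y : V, e = s(x, y) ∧ ∃ s t : unitInterval,
            s ≠ 0 ∧ s ≠ 1 ∧ t ≠ 0 ∧ t ≠ 1 ∧ γ x y s = γ u v t}.encard
          ≤ (k : ℕ∞))

/-- `G` is quasi-isometric to a connected planar graph (the wording is that of the frozen statement). -/
def QuasiIsometricToPlanar {V : Type} (G : SimpleGraph V) : Prop :=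
  ∃ (W : Type) (H : SimpleGraph W), H.Connected ∧ KPlanar H 0 ∧
    (∃ φ : V → W, ∃ M A : ℝ, 1 ≤ M ∧ 0 ≤ A ∧
      (∀ x y : V, (G.dist x y : ℝ) / M - A ≤ (H.dist (φ x) (φ y) : ℝ) ∧
        (H.dist (φ x) (φ y) : ℝ) ≤ M * (G.dist x y : ℝ) + A) ∧
      (∀ w : W, ∃ x : V, (H.dist w (φ x) : ℝ) ≤ A))

/-- The edge vector mod 2 of a walk: the coefficient of an edge is the number of times
that the walk runs through it, mod 2. -/
noncomputable def edgeVector {V : Type} {G : SimpleGraph V} {u v : V} (w : G.Walk u v) : Sym2 V →₀ ZMod 2 :=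
  (w.edges.map (fun e => Finsupp.single e (1 : ZMod 2))).sum

/-- The cycle space mod 2 of `G` is generated by the closed walks of length at most `l`. -/
def CyclesGeneratedBy {V : Type} (G : SimpleGraph V) (l : ℕ) : Prop :=
  ∀ (v : V) (w : G.Walk v v),
    edgeVector w ∈ Submodule.span (ZMod 2)
      {c | ∃ (u : V) (w' : G.Walk u u), w'.length ≤ l ∧ c = edgeVector w'}

/-- A connected, locally finite, quasi-transitive graph whose cycle space mod 2 is generated by
the closed walks of length at most `l`, for some `l`, and which can be drawn in the plane with at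
most `k` crossings on each edge, for some `k`, is quasi-isometric to a planar graph. -/
theorem result :
    ∀ (V : Type) (G : SimpleGraph V), G.Connected →
      (∀ v : V, (G.neighborSet v).Finite) →
      (∃ F : Finset V, ∀ v : V, ∃ φ : G ≃g G, φ v ∈ F) →
      (∃ l : ℕ, CyclesGeneratedBy G l) →
      (∃ k : ℕ, KPlanar G k) → QuasiIsometricToPlanar G := by
  rintro V G hc hf ⟨F, hF⟩ ⟨l, hl⟩ hk
  exact QPl.main_thm2 G hc hf F hF l hl hk

end Pool.Agent.Results.MP_d3a5e5_co.BoundedCycles
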